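import Mathlib

-- part MP_2033ac_nt.Parity
section

/-! Stickelberger parity over an unramified complete ring with residue characteristic two. -/

namespace Pool.Agent.MP_2033ac_nt

open Polynomial Finset

/-- A domain `O` in which `2` generates the kernel of a map `ρ` to a field, Henselian, with an
endomorphism `σ` lifting `φ`. -/
structure Ctx {O k : Type*} [CommRing O] [Field k] (ρ : O →+* k) (σ : O →+* O) (φ : k →+* k) :
    Prop where
  ker : ∀ x, ρ x = 0 ↔ (2 : O) ∣ x
  two : (2 : O) ≠ 0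
  unit : ∀ x, ρ x ≠ 0 → IsUnit x
  hens : ∀ f : O[X], f.Monic → ∀ a : k, (f.map ρ).eval a = 0 →
    (derivative (f.map ρ)).eval a ≠ 0 → ∃ α, f.eval α = 0 ∧ ρ α = a
  comm : ∀ x, ρ (σ x) = φ (ρ x)

variable {O k : Type*} [CommRing O] [IsDomain O] [Field k] {ρ : O →+* k} {σ : O →+* O}
  {φ : k →+* k}

theorem nodal_of_roots {R : Type*} [CommRing R] [IsDomain R] {p : R[X]} (hp : p.Monic) {N : ℕ}
    (hN : p.natDegree = N) {α : Fin N → R} (hi : Function.Injective α)
    (h : ∀ i, p.eval (α i) = 0) : p = Lagrange.nodal univ α := by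
  refine Polynomial.eq_of_degree_le_of_eval_index_eq (univ : Finset (Fin N)) hi.injOn ?_ ?_ ?_ ?_
  · rw [degree_eq_natDegree hp.ne_zero, hN, card_univ, Fintype.card_fin]
  · rw [degree_eq_natDegree hp.ne_zero, hN, Lagrange.degree_nodal, card_univ, Fintype.card_fin]
  · rw [hp.leadingCoeff, Lagrange.nodal_monic.leadingCoeff]
  · intro i hi
    rw [h i, Lagrange.eval_nodal_at_node hi]

theorem eval_deriv_nodal {R : Type*} [CommRing R] {N : ℕ} (α : Fin N → R) (i : Fin N) :
    (derivative (Lagrange.nodal univ α)).eval (α i) = ∏ j ∈ univ.erase i, (α i - α j) := by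
  rw [Lagrange.eval_nodal_derivative_eval_node_eq (mem_univ i), Lagrange.eval_nodal]

theorem prod_deriv_nodal {R : Type*} [CommRing R] {N : ℕ} (α : Fin N → R) :
    ∏ i, (derivative (Lagrange.nodal univ α)).eval (α i) =
      (-1) ^ (N * (N - 1) / 2) * (Matrix.vandermonde α).det ^ 2 := by
  have h1 := prod_prod_Ioi_mul_eq_prod_prod_off_diag fun j i : Fin N => α i - α j
  have h2 : ∑ i : Fin N, #(Ioi i) = N * (N - 1) / 2 := by
    simp only [Fin.card_Ioi]
    rw [Fin.sum_univ_eq_sum_range (fun i => N - 1 - i) N, sum_range_reflect (fun i => i) N,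
      sum_range_id]
  simp only [eval_deriv_nodal, ← compl_singleton]
  rw [← h1, Matrix.det_vandermonde, ← h2, ← prod_pow_eq_pow_sum, ← prod_pow, ← prod_mul_distrib]
  refine prod_congr rfl fun i _ => ?_
  rw [← prod_const, ← prod_pow, ← prod_mul_distrib]
  exact prod_congr rfl fun j _ => by ring

/-- The roots of a `σ`-invariant lift of a polynomial whose roots form one cycle of `φ`. -/
theorem Ctx.split (c : Ctx ρ σ φ) {p : O[X]} (hp : p.Monic) (hfix : p.map σ = p) {N : ℕ}
    (hN : p.natDegree = N) {a : Fin N → k} (ha : ∀ i, φ (a i) = a (finRotate N i))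
    (hi : Function.Injective a) (hr : ∀ i, (p.map ρ).eval (a i) = 0) :
    ∃ α : Fin N → O, (∀ i, ρ (α i) = a i) ∧ p = Lagrange.nodal univ α ∧
      ∃ Δ : O, ρ Δ ≠ 0 ∧ σ Δ = (-1) ^ (N - 1) * Δ ∧
        ∏ i, (derivative p).eval (α i) = (-1) ^ (N * (N - 1) / 2) * Δ ^ 2 := by
  have e := nodal_of_roots (hp.map ρ) (by rw [hp.natDegree_map, hN]) hi hr
  have hd : ∀ i, (derivative (p.map ρ)).eval (a i) ≠ 0 := fun i => by
    rw [e, eval_deriv_nodal]
    exact prod_ne_zero_iff.2 fun j hj => sub_ne_zero.2 fun h => (mem_erase.1 hj).1 (hi h).symm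
  choose α h1 h2 using fun i => c.hens p hp (a i) (hr i) (hd i)
  have hi' : Function.Injective α := fun i j h => hi (by rw [← h2, ← h2, h])
  have e' := nodal_of_roots hp hN hi' h1
  have hs : ∀ i, σ (α i) = α (finRotate N i) := fun i => by
    have h3 : p.eval (σ (α i)) = 0 := by
      rw [← hfix, eval_map, eval₂_at_apply, h1, map_zero]
    rw [e', Lagrange.eval_nodal, prod_eq_zero_iff] at h3
    obtain ⟨j, -, hj⟩ := h3
    rw [sub_eq_zero] at hj
    rw [hj]
    congr 1
    apply hi
    rw [← h2 j, ← hj, c.comm, h2, ha]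
  refine ⟨α, h2, e', (Matrix.vandermonde α).det, ?_, ?_, ?_⟩
  · have : ρ (Matrix.vandermonde α).det = (Matrix.vandermonde a).det := by
      rw [RingHom.map_det]
      congr 1
      ext i j
      simp [Matrix.vandermonde_apply, h2]
    rw [this]
    exact Matrix.det_vandermonde_ne_zero_iff.2 hi
  · have : σ (Matrix.vandermonde α).det =
        ((Matrix.vandermonde α).submatrix (finRotate N) id).det := by
      rw [RingHom.map_det]
      congr 1
      ext i j
      simp only [RingHom.mapMatrix_apply, Matrix.map_apply, Matrix.vandermonde_apply, map_pow, hs,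
        Matrix.submatrix_apply, id]
    rw [this, Matrix.det_permute, sign_finRotate]
    simp
  · conv_lhs => rw [e']
    exact prod_deriv_nodal α

omit [IsDomain O] in
theorem Ctx.prime (c : Ctx ρ σ φ) {x y : O} (h : (2 : O) ∣ x * y) : 2 ∣ x ∨ 2 ∣ y := by
  rwa [← c.ker, map_mul, mul_eq_zero, c.ker, c.ker] at h

/-- A unit whose square is one modulo eight is not negated by `σ`. -/
theorem Ctx.not_neg (c : Ctx ρ σ φ) {v : O} (h : (8 : O) ∣ v ^ 2 - 1) : σ v ≠ -v := by
  intro hv
  have h2 : (2 : O) ∣ v - 1 := by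
    have : (2 : O) ∣ (v - 1) * (v - 1) := by
      obtain ⟨z, hz⟩ := h
      exact ⟨4 * z - v + 1, by linear_combination hz⟩
    exact (c.prime this).elim id id
  obtain ⟨t, ht⟩ := h2
  obtain ⟨z, hz⟩ := h
  have h3 : (2 : O) ∣ t * (t + 1) := by
    refine ⟨z, mul_left_cancel₀ (mul_ne_zero c.two c.two) ?_⟩
    have : v = 1 + 2 * t := by linear_combination ht
    rw [this] at hz
    linear_combination hz
  have h4 : ¬ (2 : O) ∣ 1 := by rw [← c.ker, map_one]; exact one_ne_zero
  rcases c.prime h3 with ⟨w, hw⟩ | ⟨w, hw⟩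
  · have e : v = 1 + 4 * w := by linear_combination ht + 2 * hw
    rw [e, map_add, map_mul, map_one, map_ofNat] at hv
    exact h4 ⟨-(w + σ w), mul_left_cancel₀ c.two (by linear_combination hv)⟩
  · have e : v = 4 * w - 1 := by linear_combination ht + 2 * hw
    rw [e, map_sub, map_mul, map_one, map_ofNat] at hv
    exact h4 ⟨w + σ w, mul_left_cancel₀ c.two (by linear_combination -hv)⟩

theorem prod_four {R ι : Type*} [CommRing R] (s : Finset ι) (r : ι → R) :
    (8 : R) ∣ ∏ i ∈ s, (1 + 4 * r i) - (1 + 4 * ∑ i ∈ s, r i) := by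
  classical
  induction s using Finset.induction_on with
  | empty => simp
  | insert a s ha ih =>
    obtain ⟨z, hz⟩ := ih
    rw [prod_insert ha, sum_insert ha]
    exact ⟨2 * r a * ∑ i ∈ s, r i + z * (1 + 4 * r a),
      by linear_combination (1 + 4 * r a) * hz⟩

theorem res_nodal {R : Type*} [CommRing R] [IsDomain R] {N : ℕ} (α : Fin N → R) (Q : R[X])
    {n : ℕ} (hQ : Q.natDegree ≤ n) :
    resultant (Lagrange.nodal univ α) Q N n = ∏ i, Q.eval (α i) := by
  have h := resultant_prod_left univ (fun i => X - C (α i)) Q n (by simp) hQ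
  have e : (∏ i, (X - C (α i))).natDegree = N := by
    have := Lagrange.natDegree_nodal (s := univ) (v := α)
    rwa [card_univ, Fintype.card_fin] at this
  rw [e] at h
  rw [Lagrange.nodal, h]
  exact prod_congr rfl fun i _ => by rw [natDegree_X_sub_C, resultant_X_sub_C_left _ _ _ hQ]

theorem Ctx.not_sq (c : Ctx ρ σ φ) {x y : O} (h : (8 : O) ∣ x ^ 2 - y ^ 2) (hx : σ x = -x)
    (hy : σ y = y) (h0 : ρ y ≠ 0) : False := by
  obtain ⟨z, hz⟩ := (c.unit y h0).exists_right_inv
  have h1 : σ z = z := by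
    have := congrArg σ hz
    rw [map_mul, map_one, hy] at this
    linear_combination z * this - σ z * hz
  refine c.not_neg (v := x * z) ?_ (by rw [map_mul, hx, h1, neg_mul])
  have := h.mul_left (z ^ 2)
  convert this using 1
  linear_combination (y * z + 1) * hz

/-- The trace of the correction term is even. -/
theorem Ctx.trace (c : Ctx ρ σ φ) {P Q R : O[X]} {e : O} {n : ℕ} {α : Fin (8 * n) → O}
    (hP : P = Lagrange.nodal univ α) (hi : Function.Injective fun i => ρ (α i))
    (hQ : Q.natDegree + 1 < 8 * n) (hd : derivative P = C e * Q * (1 + 4 * R)) :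
    (2 : O) ∣ ∑ i, R.eval (α i) := by
  have h4 : (4 : O) ≠ 0 := by
    have := mul_ne_zero c.two c.two
    rwa [show (2 : O) * 2 = 4 by norm_num] at this
  have r4 : ρ 4 = 0 := (c.ker 4).2 ⟨2, by norm_num⟩
  have hPd : P.natDegree = 8 * n := by
    rw [hP, Lagrange.natDegree_nodal, card_univ, Fintype.card_fin]
  have hPm : P.Monic := hP ▸ Lagrange.nodal_monic
  have e1 : C 4 * (C e * Q * R) = derivative P - C e * Q := by
    rw [hd, map_ofNat]; ring
  have hdeg : (C e * Q * R).natDegree < 8 * n := by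
    rw [← natDegree_C_mul h4, e1]
    refine (natDegree_sub_le _ _).trans_lt (max_lt ?_ ?_)
    · exact (natDegree_derivative_le P).trans_lt (by omega)
    · exact (natDegree_C_mul_le _ _).trans_lt (by omega)
  have hco : (C e * Q * R).coeff (8 * n - 1) = 2 * n := by
    apply mul_left_cancel₀ h4
    rw [← coeff_C_mul, e1, coeff_sub, coeff_derivative, coeff_C_mul,
      coeff_eq_zero_of_natDegree_lt (p := Q) (by omega), show 8 * n - 1 + 1 = 8 * n by omega,
      ← Nat.cast_succ, show (8 * n - 1).succ = 8 * n by omega]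
    have := hPm.coeff_natDegree
    rw [hPd] at this
    rw [this]
    push_cast
    ring
  have h := Lagrange.coeff_eq_sum (s := univ) (v := fun i => ρ (α i)) hi.injOn
    (P := (C e * Q * R).map ρ) (by
      rw [card_univ, Fintype.card_fin]
      exact (degree_map_le.trans degree_le_natDegree).trans_lt (by exact_mod_cast hdeg))
  rw [card_univ, Fintype.card_fin, coeff_map, hco, (c.ker _).2 (dvd_mul_right 2 _)] at h
  rw [← c.ker, map_sum, h]
  refine sum_congr rfl fun i _ => ?_
  have h5 : ∏ j ∈ univ.erase i, (ρ (α i) - ρ (α j)) = ρ ((C e * Q).eval (α i)) := by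
    have := congrArg ρ (eval_deriv_nodal α i)
    rw [← hP, hd, eval_mul, map_mul, map_prod] at this
    simp only [map_sub] at this
    rw [← this]
    simp [r4]
  have h6 : ∏ j ∈ univ.erase i, (ρ (α i) - ρ (α j)) ≠ 0 :=
    prod_ne_zero_iff.2 fun j hj => sub_ne_zero.2 fun h => (mem_erase.1 hj).1 (hi h).symm
  rw [eq_div_iff h6, h5, eval_map, eval₂_at_apply, eval_mul (q := R), map_mul, mul_comm]

/-- If the roots of `g` form one cycle, those of `c g + g' ^ 2 G ^ 4` do not. -/
theorem Ctx.key (c : Ctx ρ σ φ) {g G : O[X]} {t : O} (ht : ρ t ≠ 0) (htσ : σ t = t) {j n : ℕ}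
    (hg : g.Monic) (hgd : g.natDegree = 8 * j + 1) (hgσ : g.map σ = g) (hG : G.Monic)
    (hGd : G.natDegree + 4 * j = 2 * n) (hGσ : G.map σ = G) (hjn : j < n)
    {a : Fin (8 * n) → k} (ha : ∀ i, φ (a i) = a (finRotate _ i)) (hai : Function.Injective a)
    (har : ∀ i, (C (ρ t) * g.map ρ + derivative (g.map ρ) ^ 2 * G.map ρ ^ 4).eval (a i) = 0)
    {b : Fin (8 * j + 1) → k} (hb : ∀ i, φ (b i) = b (finRotate _ i))
    (hbi : Function.Injective b) (hbr : ∀ i, (g.map ρ).eval (b i) = 0) : False := by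
  set d : O := 8 * j + 1 with hd
  have r8 : ρ 8 = 0 := (c.ker 8).2 ⟨4, by norm_num⟩
  have rd : ρ d = 1 := by rw [hd, map_add, map_mul, r8, zero_mul, zero_add, map_one]
  have σd : σ d = d := by simp [hd, map_ofNat]
  obtain ⟨u, hu⟩ := (c.unit d (by rw [rd]; exact one_ne_zero)).exists_left_inv
  have ru : ρ u = 1 := by simpa [rd] using congrArg ρ hu
  have σu : σ u = u := by
    have := congrArg σ hu
    rw [map_mul, map_one, σd] at this
    linear_combination u * this - σ u * hu
  set Q := C u * derivative g with hQ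
  have hQ1 : Q.natDegree ≤ 8 * j :=
    (natDegree_C_mul_le _ _).trans ((natDegree_derivative_le g).trans (by omega))
  have hQ2 : Q.coeff (8 * j) = 1 := by
    have := hg.coeff_natDegree
    rw [hgd] at this
    rw [hQ, coeff_C_mul, coeff_derivative, this, one_mul]
    push_cast
    exact hu
  have hQm : Q.Monic := monic_of_natDegree_le_of_coeff_eq_one _ hQ1 hQ2
  have hQd : Q.natDegree = 8 * j :=
    natDegree_eq_of_le_of_coeff_ne_zero hQ1 (by rw [hQ2]; exact one_ne_zero)
  have hQρ : Q.map ρ = derivative (g.map ρ) := by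
    rw [hQ, Polynomial.map_mul, map_C, ru, C_1, one_mul, derivative_map]
  have hQσ : Q.map σ = Q := by rw [hQ, Polynomial.map_mul, map_C, σu, ← derivative_map, hgσ]
  have hg' : derivative g = C d * Q := by rw [hQ, ← mul_assoc, ← C_mul, mul_comm d, hu, C_1, one_mul]
  obtain ⟨Q₁, hQ₁⟩ : C (2 : O) ∣ derivative Q := by
    rw [hQ, derivative_C_mul]
    refine Dvd.dvd.mul_left ((C_dvd_iff_dvd_coeff _ _).2 fun i => ?_) _
    obtain ⟨w, hw⟩ := Nat.even_mul_succ_self (i + 1)
    have : ((i + 1 : ℕ) : O) * ((i + 1 + 1 : ℕ) : O) = w + w := by exact_mod_cast congrArg Nat.cast hw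
    rw [coeff_derivative, coeff_derivative]
    push_cast at this ⊢
    exact ⟨g.coeff (i + 1 + 1) * w, by linear_combination g.coeff (i + 1 + 1) * this⟩
  have hM : (Q ^ 2 * G ^ 4).Monic := (hQm.pow 2).mul (hG.pow 4)
  have hMd : (Q ^ 2 * G ^ 4).natDegree = 8 * n := by
    rw [(hQm.pow 2).natDegree_mul (hG.pow 4), hQm.natDegree_pow, hG.natDegree_pow, hQd]
    omega
  have hlt : (C t * g).natDegree < (Q ^ 2 * G ^ 4).natDegree :=
    (natDegree_C_mul_le _ _).trans_lt (by omega)
  set P := C t * g + Q ^ 2 * G ^ 4 with hP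
  have hPm : P.Monic := hM.add_of_right (degree_lt_degree hlt)
  have hPd : P.natDegree = 8 * n := by rw [hP, natDegree_add_eq_right_of_natDegree_lt hlt, hMd]
  obtain ⟨α, h1, h2, Δ, -, h4, h5⟩ := c.split hPm
    (by simp only [hP, Polynomial.map_add, Polynomial.map_mul, Polynomial.map_pow, map_C, htσ, hgσ,
      hQσ, hGσ]) hPd ha hai
    (by simpa only [hP, Polynomial.map_add, Polynomial.map_mul, Polynomial.map_pow, map_C, hQρ]
      using har)
  obtain ⟨γ, -, g2, Γ, g3, g4, g5⟩ := c.split hg hgσ hgd hb hbi hbr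
  obtain ⟨w, hw⟩ := (c.unit (t * d) (by rw [map_mul, rd, mul_one]; exact ht)).exists_left_inv
  have hw' : C w * C (t * d) = (1 : O[X]) := by rw [← C_mul, hw, C_1]
  set R := C w * (Q₁ * G ^ 4 + Q * G ^ 3 * derivative G) with hR
  have hder : derivative P = C (t * d) * Q * (1 + 4 * R) := by
    rw [hP, derivative_add, derivative_C_mul, derivative_mul, derivative_pow, derivative_pow, hg',
      hQ₁, hR]
    simp only [map_ofNat, Nat.cast_ofNat, C_mul] at hw' ⊢
    linear_combination -4 * Q * (Q₁ * G ^ 4 + Q * G ^ 3 * derivative G) * hw'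
  obtain ⟨z, hz⟩ := c.trace h2 (by simpa only [h1] using hai) (by omega) hder
  obtain ⟨y, hy⟩ := prod_four univ fun i => R.eval (α i)
  have r1 : ∏ i, Q.eval (α i) = t ^ (8 * j) * ∏ i, Q.eval (γ i) := by
    obtain ⟨l, hl⟩ : ∃ l, 8 * n = 8 * j + 1 + l := ⟨8 * n - (8 * j + 1), by omega⟩
    rw [← res_nodal α Q hQ1, ← res_nodal γ Q hQ1, ← h2, ← g2, hP, pow_two, mul_assoc,
      resultant_add_mul_left _ _ _ _ _ _ hQ1, resultant_C_mul_left, hl,
      resultant_add_left_deg _ _ _ _ _ hgd.le, hQ2, mul_assoc 8, pow_mul (-1 : O)]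
    · norm_num
    · rw [hQm.natDegree_mul (hG.pow 4), hG.natDegree_pow, hQd]
      omega
  have r2 : Γ ^ 2 = d ^ (8 * j + 1) * ∏ i, Q.eval (γ i) := by
    have e : (8 * j + 1) * (8 * j + 1 - 1) / 2 = 2 * ((8 * j + 1) * (2 * j)) :=
      Nat.div_eq_of_eq_mul_right two_pos (by rw [Nat.add_sub_cancel]; ring)
    rw [e, pow_mul, neg_one_sq, one_pow, one_mul, hg'] at g5
    rw [← g5]
    simp only [eval_mul, eval_C, prod_mul_distrib, prod_const, card_univ, Fintype.card_fin]
  have r3 : Δ ^ 2 = (t * d) ^ (8 * n) * (∏ i, Q.eval (α i)) * (1 + 8 * (z + y)) := by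
    have e : 8 * n * (8 * n - 1) / 2 = 2 * (2 * n * (8 * n - 1)) :=
      Nat.div_eq_of_eq_mul_right two_pos (by ring)
    rw [e, pow_mul, neg_one_sq, one_pow, one_mul, hder] at h5
    rw [← h5]
    simp only [eval_mul, eval_C, eval_add, eval_one, eval_ofNat, prod_mul_distrib, prod_const,
      card_univ, Fintype.card_fin]
    rw [hz] at hy
    rw [show ∏ i, (1 + 4 * R.eval (α i)) = 1 + 8 * (z + y) by linear_combination hy, mul_pow]
  have d8 : ∀ l : ℕ, (8 : O) ∣ d ^ l - 1 := fun l =>
    (show (8 : O) ∣ d - 1 from ⟨j, by rw [hd]; ring⟩).trans (by simpa using sub_dvd_pow_sub_pow d 1 l)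
  obtain ⟨x₁, hx₁⟩ := d8 (8 * n)
  obtain ⟨x₂, hx₂⟩ := d8 (8 * j + 1)
  refine c.not_sq (x := Δ) (y := t ^ (4 * n + 4 * j) * Γ) ?_ ?_ ?_ ?_
  · rw [mul_pow, r2, r3, r1, mul_pow, ← pow_mul, show (4 * n + 4 * j) * 2 = 8 * n + 8 * j by ring,
      pow_add, eq_add_of_sub_eq hx₁, eq_add_of_sub_eq hx₂]
    exact ⟨t ^ (8 * n) * t ^ (8 * j) * (∏ i, Q.eval (γ i)) * (x₁ + (8 * x₁ + 1) * (z + y) - x₂),
      by ring⟩
  · rw [h4, Odd.neg_one_pow ⟨4 * n - 1, by omega⟩, neg_one_mul]
  · rw [map_mul, map_pow, htσ, g4, Nat.add_sub_cancel, Even.neg_one_pow ⟨4 * j, by ring⟩, one_mul]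
  · rw [map_mul, map_pow]
    exact mul_ne_zero (pow_ne_zero _ ht) g3

end Pool.Agent.MP_2033ac_nt

end

-- part MP_2033ac_nt.Main
section

/-! Blocks of polynomials over a finite field of characteristic two without irreducible members. -/

namespace Pool.Agent.MP_2033ac_nt

open Polynomial Finset

variable (F : Type*) [Field F] [Fintype F]

/-- The Frobenius map of the algebraic closure. -/
noncomputable def frob : AlgebraicClosure F →+* AlgebraicClosure F :=
  (FiniteField.frobeniusAlgHom F (AlgebraicClosure F)).toRingHom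

theorem frob_apply (x : AlgebraicClosure F) : frob F x = x ^ Fintype.card F := rfl

theorem frob_alg (c : F) : frob F (algebraMap F _ c) = algebraMap F _ c :=
  (FiniteField.frobeniusAlgHom F (AlgebraicClosure F)).commutes c

theorem ctx [CharP F 2] : Ctx (WittVector.constantCoeff : WittVector 2 (AlgebraicClosure F) →+* _)
    (WittVector.map (frob F)) (frob F) where
  ker x := by
    have := WittVector.mem_span_p_iff_coeff_zero_eq_zero (p := 2) x
    rw [Ideal.mem_span_singleton, Nat.cast_ofNat] at this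
    exact this.symm
  two := by simpa using WittVector.p_nonzero 2 (AlgebraicClosure F)
  unit x hx := WittVector.isUnit_of_coeff_zero_ne_zero x hx
  hens f hf a h1 h2 := by
    obtain ⟨a₀, rfl⟩ := WittVector.constantCoeff_surjective 2 a
    rw [derivative_map] at h2
    rw [eval_map, eval₂_at_apply] at h1 h2
    obtain ⟨α, h3, h4⟩ := HenselianRing.is_henselian
      (I := Ideal.span {((2 : ℕ) : WittVector 2 (AlgebraicClosure F))}) f hf a₀
      ((WittVector.mem_span_p_iff_coeff_zero_eq_zero _).2 h1)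
      ((WittVector.isUnit_of_coeff_zero_ne_zero _ h2).map _)
    refine ⟨α, h3, ?_⟩
    rw [← WittVector.ker_constantCoeff, RingHom.mem_ker, map_sub, sub_eq_zero] at h4
    exact h4
  comm x := WittVector.map_coeff (frob F) x 0

variable {F}

theorem cyc {p : F[X]} (hp : Irreducible p) {N : ℕ} (hN : p.natDegree = N) :
    ∃ a : Fin N → AlgebraicClosure F, (∀ i, frob F (a i) = a (finRotate N i)) ∧
      Function.Injective a ∧ ∀ i, (p.map (algebraMap F _)).eval (a i) = 0 := by
  obtain ⟨x, hx⟩ := IsAlgClosed.exists_aeval_eq_zero (AlgebraicClosure F) p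
    (degree_pos_of_irreducible hp).ne'
  have key : ∀ l, N ∣ l ↔ x ^ Fintype.card F ^ l = x := fun l => by
    rw [← hN, hp.natDegree_dvd_iff_dvd_X_pow_card_pow_sub_X, ← hp.dvd_iff_aeval_eq_zero hx,
      Nat.card_eq_fintype_card]
    simp [sub_eq_zero]
  have it : ∀ l y, (frob F)^[l] y = y ^ Fintype.card F ^ l := fun l y => by
    induction l with
    | zero => simp
    | succ l ih => rw [Function.iterate_succ_apply', ih, frob_apply, ← pow_mul, pow_succ]
  refine ⟨fun i => (frob F)^[i] x, fun i => ?_, ?_, fun i => ?_⟩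
  · obtain ⟨M, rfl⟩ : ∃ M, N = M + 1 := ⟨N - 1, by have := i.2; omega⟩
    beta_reduce
    rw [← Function.iterate_succ_apply' (frob F), coe_finRotate]
    split_ifs with h
    · rw [h, it, Fin.val_last]
      exact (key _).1 dvd_rfl
    · rfl
  · have aux : ∀ i l : Fin N, (i : ℕ) ≤ l → (frob F)^[i] x = (frob F)^[l] x → i = l := by
      intro i l hil h
      obtain ⟨w, hw⟩ := Nat.exists_eq_add_of_le hil
      rw [hw, Function.iterate_add_apply] at h
      have h1 := ((frob F).injective.iterate i) h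
      rw [it] at h1
      have h2 := Nat.eq_zero_of_dvd_of_lt ((key w).2 h1.symm) (by have := l.2; omega)
      exact Fin.ext (by omega)
    intro i l h
    rcases le_total (i : ℕ) l with h1 | h1
    · exact aux i l h1 h
    · exact (aux l i h1 h.symm).symm
  · rw [eval_map_algebraMap]
    beta_reduce
    generalize (i : ℕ) = l
    induction l with
    | zero => exact hx
    | succ l ih =>
      rw [Function.iterate_succ_apply']
      have := aeval_algHom_apply (FiniteField.frobeniusAlgHom F (AlgebraicClosure F))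
        ((frob F)^[l] x) p
      rw [ih, map_zero] at this
      exact this

theorem lift [CharP F 2] {p : F[X]} (hp : p.Monic) :
    ∃ P : (WittVector 2 (AlgebraicClosure F))[X], P.Monic ∧ P.natDegree = p.natDegree ∧
      P.map (WittVector.map (frob F)) = P ∧
      P.map WittVector.constantCoeff = p.map (algebraMap F _) := by
  obtain ⟨P, hP⟩ : ∃ P : (WittVector 2 (AlgebraicClosure F))[X],
      ∀ i, P.coeff i = WittVector.teichmuller 2 (algebraMap F _ (p.coeff i)) := by
    refine ⟨∑ i ∈ range (p.natDegree + 1),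
      monomial i (WittVector.teichmuller 2 (algebraMap F _ (p.coeff i))), fun i => ?_⟩
    simp only [finsetSum_coeff, coeff_monomial, sum_ite_eq', mem_range]
    split_ifs with h
    · rfl
    · rw [coeff_eq_zero_of_natDegree_lt (by omega), map_zero, WittVector.teichmuller_zero]
  have h1 : P.natDegree ≤ p.natDegree := natDegree_le_iff_coeff_eq_zero.2 fun i hi => by
    rw [hP, coeff_eq_zero_of_natDegree_lt hi, map_zero, WittVector.teichmuller_zero]
  have h2 : P.coeff p.natDegree = 1 := by rw [hP, hp.coeff_natDegree, map_one, map_one]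
  refine ⟨P, monic_of_natDegree_le_of_coeff_eq_one _ h1 h2,
    natDegree_eq_of_le_of_coeff_ne_zero h1 (by rw [h2]; exact one_ne_zero), ?_, ?_⟩
  · ext1 i
    rw [coeff_map, hP, WittVector.map_teichmuller, frob_alg]
  · ext1 i
    rw [coeff_map, hP, coeff_map]
    rfl

variable (F) in
/-- The least common multiple of the polynomials of degree at most `m`. -/
noncomputable def lcmP (m : ℕ) : F[X] := ∏ i ∈ range m, (X ^ Fintype.card F ^ (i + 1) - X)

theorem one_lt_pow_card (i : ℕ) : 1 < Fintype.card F ^ (i + 1) :=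
  Nat.one_lt_pow (by omega) Fintype.one_lt_card

theorem monic_fac (i : ℕ) : (X ^ Fintype.card F ^ (i + 1) - X : F[X]).Monic :=
  monic_X_pow_sub (by rw [degree_X]; exact_mod_cast one_lt_pow_card i)

theorem lcmP_monic (m : ℕ) : (lcmP F m).Monic := monic_prod_of_monic _ _ fun i _ => monic_fac i

theorem lcmP_natDegree (m : ℕ) :
    (lcmP F m).natDegree = ∑ i ∈ range m, Fintype.card F ^ (i + 1) := by
  rw [lcmP, natDegree_prod_of_monic _ _ fun i _ => monic_fac i]
  exact sum_congr rfl fun i _ => FiniteField.X_pow_card_sub_X_natDegree_eq F (one_lt_pow_card i)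

theorem pow_dvd_lcmP {p : F[X]} (hp : Irreducible p) (i m : ℕ) (h : i * p.natDegree ≤ m) :
    p ^ i ∣ lcmP F m := by
  induction i generalizing m with
  | zero => simp
  | succ i ih =>
    have h0 := hp.natDegree_pos
    obtain ⟨l, hl⟩ : ∃ l, (i + 1) * p.natDegree = l + 1 :=
      ⟨(i + 1) * p.natDegree - 1, (Nat.sub_add_cancel (Nat.mul_pos i.succ_pos h0)).symm⟩
    refine Dvd.dvd.trans ?_ (prod_dvd_prod_of_subset (range (l + 1)) (range m) _
      (range_subset_range.2 (hl ▸ h)))
    rw [prod_range_succ, pow_succ]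
    refine mul_dvd_mul (ih l (by rw [add_mul] at hl; omega)) ?_
    rw [← Nat.card_eq_fintype_card, ← hp.natDegree_dvd_iff_dvd_X_pow_card_pow_sub_X, ← hl]
    exact dvd_mul_left _ _

theorem dvd_lcmP (m : ℕ) (s : F[X]) : s ≠ 0 → s.natDegree ≤ m → s ∣ lcmP F m := by
  refine UniqueFactorizationMonoid.induction_on_coprime
    (P := fun s => s ≠ 0 → s.natDegree ≤ m → s ∣ lcmP F m) s (fun h => absurd rfl h)
    (fun hx _ _ => hx.dvd) (fun i hp _ h => ?_) fun {x y} hxy hx hy h0 h => ?_
  · exact pow_dvd_lcmP hp.irreducible i m (by rwa [natDegree_pow] at h)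
  · have x0 := left_ne_zero_of_mul h0
    have y0 := right_ne_zero_of_mul h0
    rw [natDegree_mul x0 y0] at h
    exact hxy.mul_dvd (hx x0 (by omega)) (hy y0 (by omega))

theorem deriv_sq [CharP F 2] (g : F[X]) : ∃ s : F[X], derivative g = s ^ 2 := by
  have h : derivative (derivative g) = 0 := by
    ext i
    obtain ⟨w, hw⟩ := Nat.even_mul_succ_self (i + 1)
    have : ((i + 1 : ℕ) : F) * ((i + 1 + 1 : ℕ) : F) = w + w := by
      exact_mod_cast congrArg Nat.cast hw
    rw [CharTwo.add_self_eq_zero] at this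
    rw [coeff_derivative, coeff_derivative, coeff_zero]
    push_cast at this ⊢
    linear_combination g.coeff (i + 1 + 1) * this
  refine ⟨(contract 2 (derivative g)).map (frobeniusEquiv F 2).symm.toRingHom, ?_⟩
  rw [← map_frobenius_expand, map_expand, Polynomial.map_map]
  conv_lhs => rw [← expand_contract 2 h two_ne_zero]
  congr 1
  ext i
  simp

/-- No polynomial `ψ ^ 4 + g` with `g` of degree `8 j + 1` is irreducible. -/
theorem block [CharP F 2] {j n : ℕ} (hjn : j < n) {ψ : F[X]} (hψ : ψ.Monic)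
    (hd : ψ.natDegree = 2 * n) (hL : lcmP F (4 * j) ∣ ψ) {g : F[X]} (hg : g.natDegree = 8 * j + 1) :
    ¬ Irreducible (ψ ^ 4 + g) := by
  intro hP
  have g0 : g ≠ 0 := fun e => by rw [e, natDegree_zero] at hg; omega
  have hPd : (ψ ^ 4 + g).natDegree = 8 * n := by
    rw [natDegree_add_eq_left_of_natDegree_lt] <;> rw [natDegree_pow] <;> omega
  have small : ∀ a : F[X], a ∣ g → a.natDegree ≤ 4 * j → IsUnit a := by
    intro a ha hs
    obtain ⟨w, hw⟩ : a ∣ ψ ^ 4 + g := dvd_add (dvd_pow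
      ((dvd_lcmP _ a (ne_zero_of_dvd_ne_zero g0 ha) hs).trans hL) (by norm_num)) ha
    refine (hP.isUnit_or_isUnit hw).resolve_right fun hu => ?_
    rw [hw, natDegree_mul (ne_zero_of_dvd_ne_zero g0 ha) hu.ne_zero,
      natDegree_eq_zero_of_isUnit hu] at hPd
    omega
  have hgi : Irreducible g := by
    refine ⟨fun hu => by rw [natDegree_eq_zero_of_isUnit hu] at hg; omega, fun a b e => ?_⟩
    have := hg
    rw [e, natDegree_mul (left_ne_zero_of_mul (e ▸ g0)) (right_ne_zero_of_mul (e ▸ g0))] at this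
    rcases le_or_gt a.natDegree (4 * j) with h | h
    · exact Or.inl (small a ⟨b, e⟩ h)
    · exact Or.inr (small b ⟨a, by rw [e, mul_comm]⟩ (by omega))
  have c0 := leadingCoeff_ne_zero.2 g0
  set g₁ := g * C g.leadingCoeff⁻¹ with hg₁
  have m1 : g₁.Monic := monic_mul_leadingCoeff_inv g0
  have d1 : g₁.natDegree = 8 * j + 1 := by rw [hg₁, natDegree_mul_C (inv_ne_zero c0), hg]
  have i1 : Irreducible g₁ := (irreducible_mul_isUnit (isUnit_C.2 (inv_ne_zero c0).isUnit)).2 hgi
  obtain ⟨s, hs⟩ := deriv_sq g₁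
  have q1 : (s ^ 2).natDegree ≤ 8 * j := hs ▸ (natDegree_derivative_le g₁).trans (by omega)
  have q2 : (s ^ 2).coeff (8 * j) = 1 := by
    have := m1.coeff_natDegree
    rw [d1] at this
    rw [← hs, coeff_derivative, this, one_mul, (CharP.cast_eq_zero_iff F 2 _).2 ⟨4 * j, by ring⟩,
      zero_add]
  have q3 : s.natDegree = 4 * j := by
    have := natDegree_eq_of_le_of_coeff_ne_zero q1 (by rw [q2]; exact one_ne_zero)
    rw [natDegree_pow] at this
    omega
  have sm : s.Monic := by
    have := (monic_of_natDegree_le_of_coeff_eq_one _ q1 q2).leadingCoeff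
    rw [leadingCoeff_pow, sq_eq_one_iff, CharTwo.neg_eq, or_self] at this
    exact this
  obtain ⟨G, hG⟩ := (dvd_lcmP _ s sm.ne_zero q3.le).trans hL
  have Gm : G.Monic := sm.of_mul_monic_left (hG ▸ hψ)
  have Gd : G.natDegree + 4 * j = 2 * n := by rw [← hd, hG, sm.natDegree_mul Gm, q3, add_comm]
  have e : ψ ^ 4 + g = C g.leadingCoeff * g₁ + derivative g₁ ^ 2 * G ^ 4 := by
    rw [hs, hG, hg₁, mul_left_comm, ← C_mul, mul_inv_cancel₀ c0, C_1]
    ring
  obtain ⟨a, a1, a2, a3⟩ := cyc hP hPd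
  obtain ⟨b, b1, b2, b3⟩ := cyc i1 d1
  obtain ⟨g', l1, l2, l3, l4⟩ := lift m1
  obtain ⟨G', k1, k2, k3, k4⟩ := lift Gm
  refine (ctx F).key (t := WittVector.teichmuller 2 (algebraMap F _ g.leadingCoeff)) ?_ ?_ l1
    (l2.trans d1) l3 k1 (k2 ▸ Gd) k3 hjn a1 a2 (fun i => ?_) b1 b2 (l4 ▸ b3)
  · exact (map_ne_zero (algebraMap F (AlgebraicClosure F))).2 c0
  · rw [WittVector.map_teichmuller, frob_alg]
  · have := a3 i
    clear_value g₁
    rw [e, Polynomial.map_add, Polynomial.map_mul, Polynomial.map_mul, Polynomial.map_pow,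
      Polynomial.map_pow, map_C, ← derivative_map] at this
    rw [l4, k4]
    exact this

theorem sum_pow_le (q m : ℕ) : (q - 1) * ∑ i ∈ range m, q ^ (i + 1) ≤ q ^ (m + 1) := by
  rcases q with _ | q
  · simp
  induction m with
  | zero => simp
  | succ m ih =>
    rw [Nat.add_sub_cancel] at ih ⊢
    rw [sum_range_succ, mul_add, pow_succ (q + 1) (m + 1)]
    nlinarith

theorem main [CharP F 2] (M : ℕ) : ∃ (d : ℕ) (h : F[X]), M ≤ d ∧ h.Monic ∧
    (Fintype.card F - 1) ^ 2 * (d + 1 + h.natDegree) ^ 2 ≤ 16 * Fintype.card F ^ (d + 1) ∧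
    ∀ g : F[X], g.degree = d → ¬ Irreducible (X ^ (d + 1) * h + g) := by
  set j := M + 1 with hj
  set ψ := lcmP F (4 * j) with hψ
  have ψm : ψ.Monic := lcmP_monic _
  have q2 : 2 ∣ Fintype.card F := by
    obtain ⟨e, -, he⟩ := FiniteField.card F 2
    rw [he]
    exact dvd_pow_self 2 e.ne_zero
  obtain ⟨n, hn⟩ : 2 ∣ ψ.natDegree := by
    rw [hψ, lcmP_natDegree]
    exact dvd_sum fun i _ => dvd_pow q2 (by omega)
  have hjn : j < n := by
    have := card_nsmul_le_sum (range (4 * j)) (fun i => Fintype.card F ^ (i + 1)) 1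
      fun i _ => (one_lt_pow_card i).le
    rw [← lcmP_natDegree, ← hψ, hn, card_range, smul_eq_mul] at this
    omega
  have Xm : (X ^ (8 * j + 1 + 1) : F[X]).Monic := monic_X_pow _
  have fm := ψm.pow 4
  have fd : (ψ ^ 4).natDegree = 8 * n := by rw [natDegree_pow, hn]; ring
  have e := modByMonic_add_div (ψ ^ 4) (X ^ (8 * j + 1 + 1) : F[X])
  have hd : (ψ ^ 4 /ₘ X ^ (8 * j + 1 + 1)).natDegree = 8 * n - (8 * j + 1 + 1) := by
    rw [natDegree_divByMonic _ Xm, fd, natDegree_X_pow]
  have hr : (ψ ^ 4 %ₘ X ^ (8 * j + 1 + 1)).degree < (8 * j + 1 : ℕ) := by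
    have h1 := degree_modByMonic_lt (ψ ^ 4) Xm
    rw [degree_X_pow, degree_lt_iff_coeff_zero] at h1
    rw [degree_lt_iff_coeff_zero]
    intro i hi
    rcases hi.lt_or_eq with hi | rfl
    · exact h1 i hi
    have h2 : (ψ ^ 4).coeff (8 * j + 1) = 0 := by
      have h3 : derivative (ψ ^ 4) = 0 := by
        rw [derivative_pow, (CharP.cast_eq_zero_iff F 2 4).2 ⟨2, rfl⟩, C_0, zero_mul, zero_mul]
      have h4 := coeff_derivative (ψ ^ 4) (8 * j)
      rwa [h3, coeff_zero, (CharP.cast_eq_zero_iff F 2 _).2 ⟨4 * j, by ring⟩, zero_add, mul_one,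
        eq_comm] at h4
    rwa [← e, coeff_add, coeff_X_pow_mul', if_neg (by omega), add_zero] at h2
  refine ⟨8 * j + 1, ψ ^ 4 /ₘ X ^ (8 * j + 1 + 1), by omega, ?_, ?_, fun g hg => ?_⟩
  · rw [Monic, leadingCoeff_divByMonic_of_monic Xm, fm.leadingCoeff]
    rw [degree_X_pow, degree_eq_natDegree fm.ne_zero, fd]
    exact_mod_cast (by omega : 8 * j + 1 + 1 ≤ 8 * n)
  · have h1 := sum_pow_le (Fintype.card F) (4 * j)
    rw [← lcmP_natDegree, ← hψ, hn] at h1
    rw [hd, show 8 * j + 1 + 1 + (8 * n - (8 * j + 1 + 1)) = 4 * (2 * n) by omega,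
      show 8 * j + 1 + 1 = (4 * j + 1) * 2 by ring, pow_mul, ← mul_pow, mul_left_comm, mul_pow]
    exact Nat.mul_le_mul (by norm_num) (Nat.pow_le_pow_left h1 2)
  · have e2 : X ^ (8 * j + 1 + 1) * (ψ ^ 4 /ₘ X ^ (8 * j + 1 + 1)) + g =
        ψ ^ 4 + (g - ψ ^ 4 %ₘ X ^ (8 * j + 1 + 1)) := by linear_combination e
    rw [e2]
    refine block hjn ψm hn dvd_rfl (natDegree_eq_of_degree_eq_some ?_)
    rw [degree_sub_eq_left_of_degree_lt (hg ▸ hr), hg]

end Pool.Agent.MP_2033ac_nt

end
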